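import Mathlib
import Pool.Agent.Q248.LongAPSet

/-!
# Long progressions in complements of sumsets in `ℤ/N` (MP_4e2f3e)

We answer Q1 affirmatively.  For large primes `N` we take `A = [0, N/4] ∪ R₁ ∪ R₂`, where `R₁` is a
(translated Erdős-Turán) Sidon set with about `√N` elements in the middle of the circle and `R₂`
is a set of about `√N` elements which meets `X - R₁` for every progression `X` of length
`k > N ^ η` in the region not covered by `[0, N/4] + A`.  Such a set exists because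
`|X - R₁| ≥ k |R₁| / 2` by the Sidon property and there are at most `N ^ 2` progressions.
-/

namespace Pool.Agent.Results.MP_4e2f3e_nt.ShortProgressions

open Finset
open scoped Pointwise

/-- `L(X)`: the largest `k ≤ N` such that `X` contains an arithmetic progression
`a, a + d, …, a + (k - 1) d` with `d ≠ 0`. -/
noncomputable def longest {N : ℕ} (X : Set (ZMod N)) : ℕ :=
  sSup {k : ℕ | k ≤ N ∧ ∃ a d : ZMod N, d ≠ 0 ∧ ∀ j < k, a + (j : ZMod N) * d ∈ X}

theorem main_aux (η : ℝ) (hη : 0 < η) (hη4 : η ≤ 1 / 4) : ∃ N₀ : ℕ, ∀ N : ℕ, N₀ ≤ N →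
    ∀ _ : Fact N.Prime, ∃ A : Finset (ZMod N), N < 4 * A.card ∧ 100 * (A + A).card ≤ 99 * N ∧
      ∀ a d : ZMod N, d ≠ 0 → ∃ j < ⌊(N : ℝ) ^ η⌋₊ + 1, a + (j : ZMod N) * d ∈ A + A := by
  have h1 := (isLittleO_log_rpow_atTop hη).bound (show (0 : ℝ) < 1 / 3201 by norm_num)
  have h2 := tendsto_natCast_atTop_atTop (R := ℝ) |>.eventually h1
  obtain ⟨N₁, hN₁⟩ := Filter.eventually_atTop.1 h2
  refine ⟨max N₁ 100000000, fun N hN hprime => ?_⟩
  have hNN1 : N₁ ≤ N := (le_max_left _ _).trans hN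
  have hNbig : 100000000 ≤ N := (le_max_right _ _).trans hN
  have hNr : (100000000 : ℝ) ≤ N := by exact_mod_cast hNbig
  have hNpos : (0 : ℝ) < N := by linarith
  have hlog := hN₁ N hNN1
  have hlogpos : 0 < Real.log N := Real.log_pos (by linarith)
  rw [Real.norm_of_nonneg hlogpos.le, Real.norm_of_nonneg (Real.rpow_nonneg hNpos.le _)] at hlog
  -- parameters
  obtain ⟨s, hs⟩ : ∃ s, s = Nat.sqrt N := ⟨_, rfl⟩
  have hs1 : s * s ≤ N := by rw [hs]; exact Nat.sqrt_le _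
  have hs2 : N < (s + 1) * (s + 1) := by rw [hs]; exact Nat.lt_succ_sqrt _
  have hs3 : 10000 ≤ s := by
    by_contra h
    push Not at h
    have : (s + 1) * (s + 1) ≤ 10000 * 10000 := Nat.mul_le_mul h h
    omega
  obtain ⟨k0, hk0⟩ : ∃ k0, k0 = s / 10 := ⟨_, rfl⟩
  have hk0pos : k0 ≠ 0 := by omega
  obtain ⟨p, hp, hkp, hp2⟩ := Nat.exists_prime_lt_and_le_two_mul k0 hk0pos
  set w : ℝ := (N : ℝ) ^ (1 / 4 : ℝ) with hw
  have hw4 : w ^ 4 = N := by
    rw [hw, ← Real.rpow_natCast, ← Real.rpow_mul hNpos.le]; norm_num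
  have hwpos : 0 < w := Real.rpow_pos_of_pos hNpos _
  have hw100 : 100 ≤ w := by
    by_contra h
    push Not at h
    have : w ^ 4 < 100 ^ 4 := by gcongr
    rw [hw4] at this
    norm_num at this
    linarith
  have hsw : w ^ 2 < s + 1 := by
    have h3 : (w ^ 2) ^ 2 < ((s : ℝ) + 1) ^ 2 := by
      have h4 : (N : ℝ) < (((s + 1) * (s + 1) : ℕ) : ℝ) := by exact_mod_cast hs2
      push_cast at h4
      calc (w ^ 2) ^ 2 = w ^ 4 := by ring
        _ = (N : ℝ) := hw4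
        _ < ((s : ℝ) + 1) * (s + 1) := h4
        _ = _ := by ring
    exact lt_of_pow_lt_pow_left₀ 2 (by positivity) h3
  have hk0s : (s : ℝ) ≤ 10 * k0 + 9 := by
    have : s ≤ 10 * k0 + 9 := by omega
    exact_mod_cast this
  have hk0w : w ^ 2 < 10 * k0 + 10 := by linarith
  obtain ⟨k, hk⟩ : ∃ k, k = ⌊(N : ℝ) ^ η⌋₊ + 1 := ⟨_, rfl⟩
  have hkle : (k : ℝ) ≤ w + 1 := by
    have h3 : ((⌊(N : ℝ) ^ η⌋₊ : ℕ) : ℝ) ≤ (N : ℝ) ^ η :=
      Nat.floor_le (Real.rpow_nonneg hNpos.le _)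
    have h4 : (N : ℝ) ^ η ≤ w := Real.rpow_le_rpow_of_exponent_le (by linarith) hη4
    rw [hk]
    push_cast
    linarith
  have hkge : (N : ℝ) ^ η < k := by
    rw [hk]; push_cast; exact Nat.lt_floor_add_one _
  have hkp' : k ≤ p := by
    have h3 : (k : ℝ) < (k0 : ℝ) + 1 := by nlinarith
    have h4 : k < k0 + 1 := by exact_mod_cast h3
    omega
  have hk0N : 25 * (p * p) ≤ N := by
    have : p * p ≤ (2 * k0) * (2 * k0) := Nat.mul_le_mul hp2 hp2
    have h4 : (10 * k0) * (10 * k0) ≤ s * s := Nat.mul_le_mul (by omega) (by omega)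
    nlinarith
  have hτ : 100 * ((p + k0) * (p + k0)) ≤ 9 * N := by
    have : (p + k0) * (p + k0) ≤ (3 * k0) * (3 * k0) := Nat.mul_le_mul (by omega) (by omega)
    have h4 : (10 * k0) * (10 * k0) ≤ s * s := Nat.mul_le_mul (by omega) (by omega)
    nlinarith
  obtain ⟨m, hm⟩ : ∃ m, m = k * p / 2 := ⟨_, rfl⟩
  have hk1 : 1 ≤ k := by omega
  have hp1000 : 1000 ≤ p := by omega
  have hkp2 : 2 ≤ k * p := by nlinarith
  have hm2 : k * p ≤ 4 * m := by omega
  have hmN : m ≤ N := by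
    have : k * p ≤ p * p := Nat.mul_le_mul_right _ hkp'
    omega
  have hk0N2 : (N : ℝ) ≤ 400 * (k0 : ℝ) ^ 2 := by
    have h3 : w ^ 2 < 20 * k0 := by nlinarith
    have h4 : (w ^ 2) ^ 2 ≤ (20 * (k0 : ℝ)) ^ 2 := by gcongr
    calc (N : ℝ) = (w ^ 2) ^ 2 := by rw [← hw4]; ring
      _ ≤ (20 * (k0 : ℝ)) ^ 2 := h4
      _ = _ := by ring
  have hexp : 2 * Real.log N < m * k0 / N := by
    rw [lt_div_iff₀ hNpos]
    have h3 : ((k * p : ℕ) : ℝ) ≤ ((4 * m : ℕ) : ℝ) := by exact_mod_cast hm2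
    push_cast at h3
    have h4 : (k0 : ℝ) ≤ p := by exact_mod_cast hkp.le
    have h5 : (0 : ℝ) ≤ k0 := by positivity
    have h6 : (0 : ℝ) ≤ k := by positivity
    have h7 : (k : ℝ) * k0 * k0 ≤ 4 * m * k0 := by
      have : (k : ℝ) * k0 ≤ k * p := by gcongr
      nlinarith
    have h8 : (k : ℝ) * N ≤ 400 * (4 * m * k0) := by
      calc (k : ℝ) * N ≤ k * (400 * (k0 : ℝ) ^ 2) := by gcongr
        _ = 400 * (k * k0 * k0) := by ring
        _ ≤ _ := by linarith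
    have h9 : 3201 * Real.log N < k := by linarith
    have h10 : 3201 * Real.log N * N < k * N := by gcongr
    have h11 : 0 < Real.log N * N := by positivity
    nlinarith
  have hcount : N * N * (N - m) ^ k0 < N ^ k0 := by
    have h3 : ((N - m : ℕ) : ℝ) ≤ N * Real.exp (-(m : ℝ) / N) := by
      rw [Nat.cast_sub hmN]
      have h4 := Real.add_one_le_exp (-(m : ℝ) / N)
      calc (N : ℝ) - m = N * (-(m : ℝ) / N + 1) := by field_simp; ring
        _ ≤ _ := by gcongr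
    have h5 : (((N - m) ^ k0 : ℕ) : ℝ) ≤ (N : ℝ) ^ k0 * Real.exp (-(m * k0 / N)) := by
      push_cast
      calc ((N - m : ℕ) : ℝ) ^ k0 ≤ (N * Real.exp (-(m : ℝ) / N)) ^ k0 := by gcongr
        _ = (N : ℝ) ^ k0 * Real.exp (-(m * k0 / N)) := by
            rw [mul_pow, ← Real.exp_nat_mul]
            congr 2
            ring
    have h6 : ((N * N * (N - m) ^ k0 : ℕ) : ℝ) < ((N ^ k0 : ℕ) : ℝ) := by
      have h7 : (N : ℝ) * N = Real.exp (2 * Real.log N) := by
        rw [show 2 * Real.log N = Real.log N + Real.log N by ring, Real.exp_add,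
          Real.exp_log hNpos]
      have h8 : (N : ℝ) * N * Real.exp (-(m * k0 / N)) < 1 := by
        rw [h7, ← Real.exp_add]
        rw [Real.exp_lt_one_iff]
        linarith
      have h9 : (0 : ℝ) < (N : ℝ) ^ k0 := by positivity
      calc ((N * N * (N - m) ^ k0 : ℕ) : ℝ) = (N : ℝ) * N * (((N - m) ^ k0 : ℕ) : ℝ) := by
            push_cast; ring
        _ ≤ (N : ℝ) * N * ((N : ℝ) ^ k0 * Real.exp (-(m * k0 / N))) := by gcongr
        _ = (N : ℝ) ^ k0 * ((N : ℝ) * N * Real.exp (-(m * k0 / N))) := by ring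
        _ < (N : ℝ) ^ k0 * 1 := by gcongr
        _ = ((N ^ k0 : ℕ) : ℝ) := by push_cast; ring
    exact_mod_cast h6
  rw [← hk]
  exact Q248.LongAP.exists_set N p k0 k m (by omega) hp (by omega) hk0N hτ hkp' (by omega) hcount

/-- Affirmative answer to Q1. -/
theorem result : ∀ η : ℝ, 0 < η → ∃ N₀ : ℕ, ∀ N : ℕ, N₀ ≤ N → N.Prime →
    ∃ A : Finset (ZMod N), (N : ℝ) / 4 < (A.card : ℝ) ∧
      ((A + A).card : ℝ) ≤ 99 / 100 * N ∧
      (longest {x : ZMod N | x ∉ A + A} : ℝ) ≤ (N : ℝ) ^ η := by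
  intro η hη
  obtain ⟨N₀, hN₀⟩ := main_aux (min η (1 / 4)) (lt_min hη (by norm_num)) (min_le_right _ _)
  refine ⟨N₀, fun N hN hprime => ?_⟩
  have : Fact N.Prime := ⟨hprime⟩
  obtain ⟨A, h1, h2, h3⟩ := hN₀ N hN this
  refine ⟨A, ?_, ?_, ?_⟩
  · have : (N : ℝ) < ((4 * A.card : ℕ) : ℝ) := by exact_mod_cast h1
    push_cast at this
    linarith
  · have : ((100 * (A + A).card : ℕ) : ℝ) ≤ ((99 * N : ℕ) : ℝ) := by exact_mod_cast h2
    push_cast at this
    linarith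
  · have hN1 : (1 : ℝ) ≤ N := by exact_mod_cast hprime.one_lt.le
    have h4 : longest {x : ZMod N | x ∉ A + A} ≤ ⌊(N : ℝ) ^ (min η (1 / 4))⌋₊ := by
      apply csSup_le
      · exact ⟨0, Nat.zero_le _, 0, 1, one_ne_zero, fun j hj => absurd hj (Nat.not_lt_zero _)⟩
      · rintro k ⟨_, a, d, hd, hall⟩
        by_contra hlt
        push Not at hlt
        obtain ⟨j, hj, hmem⟩ := h3 a d hd
        exact hall j (by omega) hmem
    calc (longest {x : ZMod N | x ∉ A + A} : ℝ) ≤ ((⌊(N : ℝ) ^ (min η (1 / 4))⌋₊ : ℕ) : ℝ) := by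
          exact_mod_cast h4
      _ ≤ (N : ℝ) ^ (min η (1 / 4)) := Nat.floor_le (by positivity)
      _ ≤ (N : ℝ) ^ η := Real.rpow_le_rpow_of_exponent_le hN1 (min_le_left _ _)

end Pool.Agent.Results.MP_4e2f3e_nt.ShortProgressions
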